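import Mathlib

/-!
The Bernardi-Morales determinant identity.

Outline. The 0/1 matrix of a sample point `(S, f)` has rows `u_i(S_{f(i)})`, `i < k`, where
`u_i(S)_j = 1` if `]i,j] ⊆ S`, the row being replaced by `0` if `i ∈ D` and `i ∉ S_{f(i)}`, and a
last row of ones. Let `R` be the cyclic shift and `X_S` the diagonal indicator of `S`. If `S` is
proper then `u_i(S) (1 - R X_S) = e_i` and `det (1 - R X_S) = 1`; if `S = [k]` then
`1 (1 - R X_S) = 0`. Summing over one set `S_t` with weight `x^S` amounts, by multilinearity in the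
columns, to replacing `1 - R X_S` by `Q = diag (1 + x) - R diag x`, hence the rows `u_i(S)`,
`f(i) = t`, by `c_i e_i Q⁻¹`, with `c_i = x_i` if `i ∈ D` and `1 + x_i` otherwise, and multiplying by
`det Q`. Doing this for all `t` gives `(det Q)^(r-1) ∏ c_i`, the generating function of the right
hand side; then compare the coefficients of `x^p`.
-/

namespace Pool.Agent.Results.MP_02f487_co.DeterminantIdentity

open Finset

/-- The cyclic interval `]i,j] = {i+1, ..., j}` of `Fin (n+1)` (indices mod `n+1`). -/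
def cyc {n : ℕ} (i j : Fin (n + 1)) : Finset (Fin (n + 1)) :=
  univ.filter (fun x => 0 < (x - i).val ∧ (x - i).val ≤ (j - i).val)

/-- `r`-tuples of subsets of `[k]`, `k = n + 1`; `x : Fin (n+1)` stands for the element `x + 1`. -/
abbrev Tup (n r : ℕ) := Fin r → Finset (Fin (n + 1))

/-- `S_{p,r}`: the tuples in which each `i` lies in exactly `p i` of the sets. -/
def SS (n r : ℕ) (p : Fin (n + 1) → ℕ) : Finset (Tup n r) :=
  univ.filter (fun S => ∀ i, (univ.filter (fun t => i ∈ S t)).card = p i)

/-- `M_{p,r}`: the tuples of `S_{p,r}` in which no set is the whole `[k]`. -/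
def MM (n r : ℕ) (p : Fin (n + 1) → ℕ) : Finset (Tup n r) :=
  (SS n r p).filter (fun S => ∀ t, S t ≠ univ)

/-- sample points `(S, f)`, with `f : [k-1] → [r]`. -/
abbrev Pt (n r : ℕ) := Tup n r × (Fin n → Fin r)

/-- the surjections `[k-1] → [r]`. -/
def Surj (n r : ℕ) : Finset (Fin n → Fin r) :=
  univ.filter (fun f => ∀ t, ∃ i, f i = t)

/-- uniform probability of the event `E` on the finite set `Om`. -/
noncomputable def Pr {α : Type} (Om : Finset α) (E : Set α) : ℚ := by
  classical
  exact ((Om.filter (fun ω => ω ∈ E)).card : ℚ) / Om.card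

/-- the `Pr`-determinant of a matrix of events. -/
noncomputable def Pdet {α : Type} {k : ℕ} (Om : Finset α) (E : Fin k → Fin k → Set α) : ℚ :=
  ∑ π : Equiv.Perm (Fin k), ((Equiv.Perm.sign π : ℤ) : ℚ) * Pr Om (⋂ i, E i (π i))

/-- the event `I^t_{i,j}`. -/
def evI {n r : ℕ} (t : Fin r) (i j : Fin (n + 1)) : Set (Pt n r) := {ω | cyc i j ⊆ ω.1 t}

/-- the event `J^t_{i,j}`. -/
def evJ {n r : ℕ} (t : Fin r) (i j : Fin (n + 1)) : Set (Pt n r) :=
  if i = j then {ω | ω.1 t = univ} else evI t i j

/-- the matrix of events `M^D`; the last row is the sure event. -/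
def MD {n r : ℕ} (D : Finset (Fin n)) (i j : Fin (n + 1)) : Set (Pt n r) :=
  Fin.lastCases (motive := fun _ => Set (Pt n r)) Set.univ
    (fun i' => if i' ∈ D then {ω | ω ∈ evJ (ω.2 i') (i'.castSucc - 1) j}
      else {ω | ω ∈ evI (ω.2 i') i'.castSucc j}) i

section core

variable {n : ℕ} {K : Type*} [Field K]

lemma cyc_self (i : Fin (n + 1)) : cyc i i = ∅ := by
  unfold cyc
  apply Finset.filter_eq_empty_iff.mpr
  intro x _ h
  have : (i - i).val = 0 := by simp
  omega

lemma val_sub_one {d : Fin (n + 1)} (h : d ≠ 0) : (d - 1).val = d.val - 1 := by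
  rw [Fin.val_sub_one_of_ne_zero h]

lemma cyc_succ {i j : Fin (n + 1)} (h : j ≠ i) : cyc i j = insert j (cyc i (j - 1)) := by
  have hd : j - i ≠ 0 := sub_ne_zero.mpr h
  have h1 : (j - 1 - i).val = (j - i).val - 1 := by
    rw [sub_right_comm]; exact val_sub_one hd
  have h0 : 0 < (j - i).val := Nat.pos_of_ne_zero (by
    intro h2; exact hd (Fin.ext h2))
  ext x
  unfold cyc
  simp only [mem_filter, mem_univ, true_and, mem_insert, h1]
  constructor
  · rintro ⟨h2, h3⟩
    by_cases h4 : (x - i).val = (j - i).val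
    · left
      have : x - i = j - i := Fin.ext h4
      exact sub_left_injective this
    · right; omega
  · rintro (h2 | h2)
    · subst h2; exact ⟨h0, le_rfl⟩
    · omega

lemma insert_cyc (i : Fin (n + 1)) : insert i (cyc i (i - 1)) = univ := by
  ext x
  simp only [mem_insert, mem_univ, iff_true]
  by_cases h : x = i
  · left; exact h
  · right
    unfold cyc
    simp only [mem_filter, mem_univ, true_and]
    have hd : x - i ≠ 0 := sub_ne_zero.mpr h
    have h0 : 0 < (x - i).val := Nat.pos_of_ne_zero (by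
      intro h2; exact hd (Fin.ext h2))
    refine ⟨h0, ?_⟩
    have : i - 1 - i = -1 := sub_sub_cancel_left i 1
    rw [this]
    have h2 : (-1 : Fin (n + 1)) = Fin.last n :=
      neg_eq_iff_add_eq_zero.mpr ((add_comm _ _).trans (Fin.last_add_one n))
    rw [h2]
    have := (x - i).is_le
    simpa using this

/-- rows of intervals -/
def u (K : Type*) [Field K] (S : Finset (Fin (n + 1))) (i j : Fin (n + 1)) : K :=
  if cyc i j ⊆ S then 1 else 0

/-- indicator -/
def ind (K : Type*) [Field K] (S : Finset (Fin (n + 1))) (j : Fin (n + 1)) : K :=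
  if j ∈ S then 1 else 0

lemma u_rec (S : Finset (Fin (n + 1))) (hS : S ≠ univ) (i j : Fin (n + 1)) :
    u K S i j - u K S i (j - 1) * ind K S j = if i = j then 1 else 0 := by
  unfold u ind
  by_cases h : i = j
  · subst h
    rw [cyc_self, if_pos (empty_subset _), if_pos rfl]
    by_cases h1 : i ∈ S
    · have : ¬ cyc i (i - 1) ⊆ S := by
        intro h2
        apply hS
        rw [← univ_subset_iff, ← insert_cyc i]
        exact insert_subset h1 h2
      rw [if_neg this]; simp
    · rw [if_neg h1]; simp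
  · rw [if_neg h, cyc_succ (Ne.symm h)]
    by_cases h1 : j ∈ S
    · by_cases h2 : cyc i (j - 1) ⊆ S
      · rw [if_pos (insert_subset h1 h2), if_pos h2, if_pos h1]; simp
      · rw [if_neg (fun h3 => h2 ((subset_insert _ _).trans h3)), if_neg h2]; simp
    · rw [if_neg (fun h3 => h1 (h3 (mem_insert_self _ _))), if_neg h1]; simp

/-- the matrix `diag d - R diag a` -/
def T (d a : Fin (n + 1) → K) : Matrix (Fin (n + 1)) (Fin (n + 1)) K :=
  Matrix.of fun i j => (if i = j then d j else 0) - (if i = j - 1 then a j else 0)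

lemma mul_T (N : Matrix (Fin (n + 1)) (Fin (n + 1)) K) (d a : Fin (n + 1) → K)
    (i j : Fin (n + 1)) : (N * T d a) i j = N i j * d j - N i (j - 1) * a j := by
  rw [Matrix.mul_apply]
  unfold T
  simp only [Matrix.of_apply, mul_sub, sum_sub_distrib, mul_ite, mul_zero]
  rw [Finset.sum_ite_eq', Finset.sum_ite_eq']
  simp

lemma det_T_proper (S : Finset (Fin (n + 1))) (hS : S ≠ univ) :
    (T (fun _ => 1) (ind K S)).det = 1 := by
  obtain ⟨c, hc⟩ : ∃ c, c ∉ S := by
    by_contra h
    push Not at h
    exact hS (eq_univ_iff_forall.mpr h)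
  rw [← Matrix.det_submatrix_equiv_self (Equiv.addRight c)]
  rw [Matrix.det_of_isUpperTriangular]
  · apply Finset.prod_eq_one
    intro i _
    unfold T
    simp only [Matrix.submatrix_apply, Matrix.of_apply, if_true]
    by_cases h : (Equiv.addRight c) i = (Equiv.addRight c) i - 1
    · rw [if_pos h]
      have h1 : (1 : Fin (n + 1)) = 0 := sub_eq_self.mp h.symm
      have hn : n = 0 := by
        by_contra hn
        have := congrArg Fin.val h1
        simp at this
        omega
      subst hn
      have : (Equiv.addRight c) i = c := by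
        have h3 := ((Equiv.addRight c) i).isLt
        have h4 := c.isLt
        apply Fin.ext
        omega
      rw [this]
      unfold ind
      rw [if_neg hc]; simp
    · rw [if_neg h]; simp
  · intro i j hij
    simp only [id] at hij
    unfold T
    simp only [Matrix.submatrix_apply, Matrix.of_apply, Equiv.coe_addRight, add_left_inj]
    rw [if_neg (ne_of_gt hij)]
    by_cases h : i + c = j + c - 1
    · rw [if_pos h]
      have h1 : i = j - 1 := by
        have : j + c - 1 = j - 1 + c := add_sub_right_comm j c 1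
        rw [this] at h
        exact add_right_cancel h
      have hj : j = 0 := by
        by_contra hj
        have h2 := val_sub_one hj
        rw [← h1] at h2
        have : j.val < i.val := hij
        omega
      subst hj
      unfold ind
      rw [zero_add, if_neg hc]; simp
    · rw [if_neg h]; simp

lemma det_T_univ : (T (n := n) (K := K) (fun _ => 1) (ind K univ)).det = 0 := by
  rw [← Matrix.exists_vecMul_eq_zero_iff]
  refine ⟨fun _ => 1, ?_, ?_⟩
  · intro h
    have := congrFun h 0
    simp at this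
  · ext j
    have := mul_T (n := n) (K := K) (Matrix.of fun _ _ => 1) (fun _ => 1) (ind K univ) 0 j
    rw [Matrix.mul_apply] at this
    simp only [Matrix.vecMul, dotProduct, Pi.zero_apply]
    simp only [Matrix.of_apply] at this
    rw [this]
    simp [ind]

/-- multilinear expansion in the columns -/
lemma det_add_cols (M0 M1 : Matrix (Fin (n + 1)) (Fin (n + 1)) K) :
    ∑ S : Finset (Fin (n + 1)), (Matrix.of fun i j => if j ∈ S then M1 i j else M0 i j).det =
      (Matrix.of fun i j => M1 i j + M0 i j).det := by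
  have h := MultilinearMap.map_add_univ
    ((Matrix.detRowAlternating : (Fin (n + 1) → K) [⋀^Fin (n + 1)]→ₗ[K] K).toMultilinearMap)
    (fun j i => M1 i j) (fun j i => M0 i j)
  rw [← Matrix.det_transpose]
  refine Eq.trans ?_ (Eq.trans h.symm ?_)
  · apply Finset.sum_congr rfl
    intro S _
    rw [← Matrix.det_transpose]
    change Matrix.det _ = Matrix.det _
    congr 1
    ext j i
    simp only [Matrix.transpose_apply, Matrix.of_apply, Finset.piecewise]
    split_ifs <;> rfl
  · change Matrix.det _ = Matrix.det _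
    rfl

lemma det_eq_of_block (A A' : Matrix (Fin (n + 1)) (Fin (n + 1)) K) (B : Finset (Fin (n + 1)))
    (h1 : ∀ i ∈ B, ∀ j ∉ B, A i j = 0) (h1' : ∀ i ∈ B, ∀ j ∉ B, A' i j = 0)
    (h2 : ∀ i ∈ B, ∀ j ∈ B, A i j = A' i j) (h3 : ∀ i ∉ B, ∀ j ∉ B, A i j = A' i j) :
    A.det = A'.det := by
  rw [Matrix.twoBlockTriangular_det A (fun i => i ∉ B)
    (fun i hi j hj => h1 i (not_not.mp hi) j hj),
    Matrix.twoBlockTriangular_det A' (fun i => i ∉ B)
    (fun i hi j hj => h1' i (not_not.mp hi) j hj)]
  congr 2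
  · ext ⟨i, hi⟩ ⟨j, hj⟩
    exact h3 i hi j hj
  · ext ⟨i, hi⟩ ⟨j, hj⟩
    exact h2 i (not_not.mp hi) j (not_not.mp hj)

/-- replace the rows in `B` of `y` by the rows of `z` -/
def rep (B : Finset (Fin (n + 1))) (z y : Matrix (Fin (n + 1)) (Fin (n + 1)) K) :
    Matrix (Fin (n + 1)) (Fin (n + 1)) K :=
  Matrix.of fun i j => if i ∈ B then z i j else y i j

/-- weights -/
def wt (x : Fin (n + 1) → K) (S : Finset (Fin (n + 1))) : K := ∏ j ∈ S, x j

lemma det_Q (x : Fin (n + 1) → K) :
    (T (fun j => 1 + x j) x).det = ∑ S ∈ univ.filter (fun S : Finset (Fin (n + 1)) => S ≠ univ),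
      wt x S := by
  have h := det_add_cols (T (fun _ => (1 : K)) (ind K (∅ : Finset (Fin (n + 1)))))
    (Matrix.of fun i j => x j * T (fun _ => (1 : K)) (ind K (univ : Finset (Fin (n + 1)))) i j)
  have e1 : (Matrix.of fun i j => (Matrix.of fun i j => x j * T (fun _ => (1 : K))
      (ind K (univ : Finset (Fin (n + 1)))) i j) i j +
      T (fun _ => (1 : K)) (ind K (∅ : Finset (Fin (n + 1)))) i j) = T (fun j => 1 + x j) x := by
    ext i j
    simp only [T, Matrix.of_apply, ind, mem_univ, if_true, notMem_empty, if_false]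
    split_ifs <;> ring
  rw [e1] at h
  rw [← h, Finset.sum_filter]
  apply Finset.sum_congr rfl
  intro S _
  have e2 : (Matrix.of fun i j => if j ∈ S then (Matrix.of fun i j => x j * T (fun _ => (1 : K))
      (ind K (univ : Finset (Fin (n + 1)))) i j) i j
      else T (fun _ => (1 : K)) (ind K (∅ : Finset (Fin (n + 1)))) i j) =
      Matrix.of fun i j => (if j ∈ S then x j else 1) * T (fun _ => (1 : K)) (ind K S) i j := by
    ext i j
    by_cases h : j ∈ S
    · simp [T, ind, h]
    · simp [T, ind, h]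
  rw [e2, Matrix.det_mul_row]
  have e3 : ∏ j, (if j ∈ S then x j else 1) = wt x S := by
    unfold wt
    rw [Finset.prod_ite_mem]; simp
  rw [e3]
  by_cases hS : S = univ
  · subst hS
    rw [det_T_univ]; simp
  · rw [det_T_proper S hS, if_pos hS, mul_one]

/-- rows of `M^D` -/
def uD (K : Type*) [Field K] (D : Finset (Fin (n + 1))) (S : Finset (Fin (n + 1))) :
    Matrix (Fin (n + 1)) (Fin (n + 1)) K :=
  Matrix.of fun i j => if i ∈ D ∧ i ∉ S then 0 else u K S i j

lemma block (x : Fin (n + 1) → K) (D B : Finset (Fin (n + 1)))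
    (y : Matrix (Fin (n + 1)) (Fin (n + 1)) K) (hB : Fin.last n ∉ B)
    (hy : ∀ j, y (Fin.last n) j = 1) :
    ∑ S ∈ univ.filter (fun S : Finset (Fin (n + 1)) => S ≠ univ),
      wt x S * (rep B (uD K D S) y).det =
      (rep B (Matrix.of fun i j => if i = j then (if i ∈ D then x i else 1 + x i) else 0)
        (y * T (fun j => 1 + x j) x)).det := by
  -- expansion
  set M0 : Matrix (Fin (n + 1)) (Fin (n + 1)) K := Matrix.of fun i j =>
    (if j ∈ B ∩ D then 0 else 1) * (if i ∈ B then (if i = j then 1 else 0) else y i j) with hM0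
  set M1 : Matrix (Fin (n + 1)) (Fin (n + 1)) K := Matrix.of fun i j =>
    x j * (if i ∈ B then (if i = j then 1 else 0) else y i j - y i (j - 1)) with hM1
  have h := det_add_cols M0 M1
  have e1 : (Matrix.of fun i j => M1 i j + M0 i j).det =
      (rep B (Matrix.of fun i j => if i = j then (if i ∈ D then x i else 1 + x i) else 0)
        (y * T (fun j => 1 + x j) x)).det := by
    apply det_eq_of_block _ _ B
    · intro i hi j hj
      have : i ≠ j := fun h => hj (h ▸ hi)
      simp [hM0, hM1, hi, this]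
    · intro i hi j hj
      have : i ≠ j := fun h => hj (h ▸ hi)
      simp [rep, hi, this]
    · intro i hi j hj
      simp only [hM0, hM1, rep, Matrix.of_apply, hi, if_true]
      by_cases hij : i = j
      · subst hij
        by_cases hD : i ∈ D
        · simp [hD, hi]
        · simp [hD, add_comm]
      · simp [hij]
    · intro i hi j hj
      simp only [hM0, hM1, rep, Matrix.of_apply, hi, if_false, mul_T]
      have : j ∉ B ∩ D := fun h => hj (Finset.mem_inter.mp h).1
      rw [if_neg this]; ring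
  rw [← e1, ← h, Finset.sum_filter]
  apply Finset.sum_congr rfl
  intro S _
  -- the matrix for `S`
  have e2 : (Matrix.of fun i j => if j ∈ S then M1 i j else M0 i j) =
      Matrix.of fun i j => (if j ∈ S then x j else (if j ∈ B ∩ D then 0 else 1)) *
        (rep B (Matrix.of fun i j => if i = j then 1 else 0) (y * T (fun _ => 1) (ind K S))) i j := by
    ext i j
    by_cases h : j ∈ S
    · simp only [hM1, Matrix.of_apply, h, if_true, rep, mul_T, ind, mul_one]
    · simp only [hM0, Matrix.of_apply, h, if_false, rep, mul_T, ind, mul_one, mul_zero, sub_zero]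
  rw [e2, Matrix.det_mul_row]
  by_cases hS : S = univ
  · subst hS
    rw [if_neg (by simp)]
    symm
    rw [mul_eq_zero]
    right
    apply Matrix.det_eq_zero_of_row_eq_zero (Fin.last n)
    intro j
    simp [rep, hB, mul_T, hy, ind]
  · rw [if_pos hS]
    by_cases hBD : ∀ i ∈ B ∩ D, i ∈ S
    · have e3 : ∏ j, (if j ∈ S then x j else (if j ∈ B ∩ D then (0:K) else 1)) = wt x S := by
        unfold wt
        rw [← Finset.prod_subset (Finset.subset_univ S)]
        · apply Finset.prod_congr rfl
          intro j hj; rw [if_pos hj]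
        · intro j _ hj
          rw [if_neg hj, if_neg (fun h => hj (hBD j h))]
      rw [e3]
      congr 1
      have e4 : rep B (uD K D S) y * T (fun _ => 1) (ind K S) =
          rep B (Matrix.of fun i j => if i = j then 1 else 0) (y * T (fun _ => 1) (ind K S)) := by
        ext i j
        rw [mul_T]
        by_cases hi : i ∈ B
        · have : ¬ (i ∈ D ∧ i ∉ S) := by
            rintro ⟨h1, h2⟩
            exact h2 (hBD i (Finset.mem_inter.mpr ⟨hi, h1⟩))
          simp only [rep, uD, Matrix.of_apply, hi, if_true, this, if_false, mul_one]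
          exact u_rec S hS i j
        · simp only [rep, Matrix.of_apply, hi, if_false, mul_T]
      rw [← e4, Matrix.det_mul, det_T_proper S hS, mul_one]
    · push Not at hBD
      obtain ⟨i, hi, hiS⟩ := hBD
      have e3 : ∏ j, (if j ∈ S then x j else (if j ∈ B ∩ D then (0:K) else 1)) = 0 := by
        apply Finset.prod_eq_zero (Finset.mem_univ i)
        rw [if_neg hiS, if_pos hi]
      rw [e3, zero_mul, mul_eq_zero]
      right
      apply Matrix.det_eq_zero_of_row_eq_zero i
      intro j
      rw [Finset.mem_inter] at hi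
      simp [rep, uD, hi.1, hi.2, hiS]

/-- the averaged rows -/
noncomputable def vD (x : Fin (n + 1) → K) (D : Finset (Fin (n + 1))) :
    Matrix (Fin (n + 1)) (Fin (n + 1)) K :=
  Matrix.of fun i j => (if i ∈ D then x i else 1 + x i) * (T (fun j => 1 + x j) x)⁻¹ i j

lemma vD_mul (x : Fin (n + 1) → K) (D : Finset (Fin (n + 1)))
    (hP : (T (fun j => 1 + x j) x).det ≠ 0) (i j : Fin (n + 1)) :
    (vD x D * T (fun j => 1 + x j) x) i j =
      if i = j then (if i ∈ D then x i else 1 + x i) else 0 := by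
  have h : (T (fun j => 1 + x j) x)⁻¹ * T (fun j => 1 + x j) x = 1 :=
    Matrix.nonsing_inv_mul _ (isUnit_iff_ne_zero.mpr hP)
  have h2 := congrFun (congrFun h i) j
  rw [mul_T] at h2 ⊢
  simp only [vD, Matrix.of_apply]
  rw [mul_assoc, mul_assoc, ← mul_sub, h2, Matrix.one_apply]
  split_ifs <;> simp

lemma block' (x : Fin (n + 1) → K) (D B : Finset (Fin (n + 1)))
    (y : Matrix (Fin (n + 1)) (Fin (n + 1)) K) (hB : Fin.last n ∉ B)
    (hy : ∀ j, y (Fin.last n) j = 1) (hP : (T (fun j => 1 + x j) x).det ≠ 0) :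
    ∑ S ∈ univ.filter (fun S : Finset (Fin (n + 1)) => S ≠ univ),
      wt x S * (rep B (uD K D S) y).det =
    ∑ S ∈ univ.filter (fun S : Finset (Fin (n + 1)) => S ≠ univ),
      wt x S * (rep B (vD x D) y).det := by
  rw [block x D B y hB hy, ← Finset.sum_mul, ← det_Q, mul_comm, ← Matrix.det_mul]
  congr 1
  ext i j
  rw [mul_T]
  by_cases hi : i ∈ B
  · have := vD_mul x D hP i j
    rw [mul_T] at this
    simp only [rep, Matrix.of_apply, hi, if_true]
    exact this.symm
  · simp only [rep, Matrix.of_apply, hi, if_false, mul_T]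

end core


section induct

/-- proper subsets -/
abbrev XX (n : ℕ) := {S : Finset (Fin (n + 1)) // S ≠ univ}

lemma sum_update {K ι X : Type*} [Field K] [CharZero K] [Fintype ι] [DecidableEq ι] [Fintype X]
    [Nonempty X] (t : ι) (g h : (ι → X) → K)
    (H : ∀ S, ∑ T, g (Function.update S t T) = ∑ T, h (Function.update S t T)) :
    ∑ S, g S = ∑ S, h S := by
  have key : ∀ g : (ι → X) → K, ∑ S, ∑ T, g (Function.update S t T) =
      (Fintype.card X : K) * ∑ S, g S := by
    intro g
    have hinv : Function.Involutive (fun p : (ι → X) × X => (Function.update p.1 t p.2, p.1 t)) := by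
      rintro ⟨S, T⟩
      simp
    have h1 := Equiv.sum_comp (Function.Involutive.toPerm _ hinv)
      (fun p : (ι → X) × X => g p.1)
    simp only [Function.Involutive.coe_toPerm, Fintype.sum_prod_type] at h1
    rw [h1, Finset.mul_sum]
    simp
  have h1 := key g
  have h2 := key h
  simp only [H] at h1
  rw [h2] at h1
  have h3 : (Fintype.card X : K) ≠ 0 := by
    exact_mod_cast Fintype.card_ne_zero
  exact (mul_left_cancel₀ h3 h1).symm

variable {n r : ℕ} {K : Type*} [Field K]

lemma sum_XX (g : Finset (Fin (n + 1)) → K) :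
    ∑ S ∈ univ.filter (fun S : Finset (Fin (n + 1)) => S ≠ univ), g S = ∑ T : XX n, g T.1 :=
  Finset.sum_subtype _ (by simp) g

/-- the matrix in the induction -/
noncomputable def Mx (x : Fin (n + 1) → K) (D : Finset (Fin (n + 1))) (f : Fin n → Fin r)
    (A : Finset (Fin r)) (S : Fin r → XX n) : Matrix (Fin (n + 1)) (Fin (n + 1)) K :=
  Matrix.of fun i j => Fin.lastCases (motive := fun _ => K) 1
    (fun i' => if f i' ∈ A then vD x D i'.castSucc j else uD K D (S (f i')).1 i'.castSucc j) i

lemma Mx_last (x : Fin (n + 1) → K) (D : Finset (Fin (n + 1))) (f : Fin n → Fin r)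
    (A : Finset (Fin r)) (S : Fin r → XX n) (j : Fin (n + 1)) :
    Mx x D f A S (Fin.last n) j = 1 := by
  simp [Mx]

lemma Mx_castSucc (x : Fin (n + 1) → K) (D : Finset (Fin (n + 1))) (f : Fin n → Fin r)
    (A : Finset (Fin r)) (S : Fin r → XX n) (i : Fin n) (j : Fin (n + 1)) :
    Mx x D f A S i.castSucc j =
      if f i ∈ A then vD x D i.castSucc j else uD K D (S (f i)).1 i.castSucc j := by
  simp [Mx]

lemma step [CharZero K] (x : Fin (n + 1) → K) (D : Finset (Fin (n + 1))) (f : Fin n → Fin r)
    (A : Finset (Fin r)) (t : Fin r) (ht : t ∉ A) (hP : (T (fun j => 1 + x j) x).det ≠ 0) :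
    ∑ S : Fin r → XX n, (∏ s, wt x (S s).1) * (Mx x D f A S).det =
      ∑ S : Fin r → XX n, (∏ s, wt x (S s).1) * (Mx x D f (insert t A) S).det := by
  have : Nonempty (XX n) := ⟨⟨∅, by
    intro h
    have := Finset.mem_univ (0 : Fin (n + 1))
    rw [← h] at this
    simp at this⟩⟩
  apply sum_update t
  intro S
  set B : Finset (Fin (n + 1)) := (univ.filter (fun i' => f i' = t)).map Fin.castSuccEmb with hB
  set y := Mx x D f (insert t A) S with hy
  have hlast : Fin.last n ∉ B := by
    rw [hB, Finset.mem_map]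
    rintro ⟨i, _, hi⟩
    exact absurd hi (Fin.castSucc_lt_last i).ne
  have hmem : ∀ i : Fin n, i.castSucc ∈ B ↔ f i = t := by
    intro i
    rw [hB, Finset.mem_map]
    constructor
    · rintro ⟨i', h1, h2⟩
      have : i' = i := Fin.castSucc_injective n h2
      subst this
      simpa using h1
    · intro h
      exact ⟨i, by simpa using h, rfl⟩
  have e1 : ∀ U : XX n, Mx x D f A (Function.update S t U) = rep B (uD K D U.1) y := by
    intro U
    ext i j
    refine Fin.lastCases ?_ (fun i' => ?_) i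
    · rw [Mx_last]
      simp only [rep, Matrix.of_apply, hlast, if_false, hy, Mx_last]
    · rw [Mx_castSucc]
      simp only [rep, Matrix.of_apply, hmem]
      by_cases h : f i' = t
      · rw [if_pos h, h, if_neg ht, Function.update_self]
      · rw [if_neg h, hy, Mx_castSucc, Function.update_of_ne h]
        simp [h]
  have e2 : ∀ U : XX n, Mx x D f (insert t A) (Function.update S t U) = rep B (vD x D) y := by
    intro U
    ext i j
    refine Fin.lastCases ?_ (fun i' => ?_) i
    · rw [Mx_last]
      simp only [rep, Matrix.of_apply, hlast, if_false, hy, Mx_last]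
    · rw [Mx_castSucc]
      simp only [rep, Matrix.of_apply, hmem]
      by_cases h : f i' = t
      · rw [if_pos h, h, if_pos (Finset.mem_insert_self _ _)]
      · rw [if_neg h, hy, Mx_castSucc, Function.update_of_ne h]
  have e3 : ∀ U : XX n, ∏ s, wt x ((Function.update S t U) s).1 =
      wt x U.1 * ∏ s ∈ univ \ {t}, wt x (S s).1 := by
    intro U
    have h1 : (fun s => wt x ((Function.update S t U) s).1) =
        Function.update (fun s => wt x (S s).1) t (wt x U.1) := by
      ext s
      by_cases h : s = t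
      · subst h; simp
      · simp [Function.update_of_ne h]
    have h2 := Finset.prod_update_of_mem (Finset.mem_univ t) (fun s => wt x (S s).1) (wt x U.1)
    rw [← h2]
    apply Finset.prod_congr rfl
    intro s _
    exact congrFun h1 s
  simp only [e1, e2, e3]
  have hb := block' x D B y hlast (fun j => by rw [hy, Mx_last]) hP
  rw [sum_XX (fun S => wt x S * (rep B (uD K D S) y).det),
    sum_XX (fun S => wt x S * (rep B (vD x D) y).det)] at hb
  have h4 : ∀ g : XX n → K, ∑ U : XX n, wt x U.1 * (∏ s ∈ univ \ {t}, wt x (S s).1) * g U =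
      (∏ s ∈ univ \ {t}, wt x (S s).1) * ∑ U : XX n, wt x U.1 * g U := by
    intro g
    rw [Finset.mul_sum]
    apply Finset.sum_congr rfl
    intro U _
    ring
  rw [h4 (fun U => (rep B (uD K D U.1) y).det), h4 (fun _ => (rep B (vD x D) y).det), hb]

lemma all_steps [CharZero K] (x : Fin (n + 1) → K) (D : Finset (Fin (n + 1))) (f : Fin n → Fin r)
    (hP : (T (fun j => 1 + x j) x).det ≠ 0) (A : Finset (Fin r)) :
    ∑ S : Fin r → XX n, (∏ s, wt x (S s).1) * (Mx x D f ∅ S).det =
      ∑ S : Fin r → XX n, (∏ s, wt x (S s).1) * (Mx x D f A S).det := by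
  induction A using Finset.induction_on with
  | empty => rfl
  | insert t A ht ih => rw [ih, step x D f A t ht hP]

lemma det_final (x : Fin (n + 1) → K) (D : Finset (Fin (n + 1))) (f : Fin n → Fin r)
    (S : Fin r → XX n) (hP : (T (fun j => 1 + x j) x).det ≠ 0) :
    (Mx x D f univ S).det * (T (fun j => 1 + x j) x).det =
      ∏ i : Fin n, (if i.castSucc ∈ D then x i.castSucc else 1 + x i.castSucc) := by
  rw [← Matrix.det_mul, Matrix.det_of_isLowerTriangular, Fin.prod_univ_castSucc]
  · have h1 : (Mx x D f univ S * T (fun j => 1 + x j) x) (Fin.last n) (Fin.last n) = 1 := by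
      rw [mul_T, Mx_last, Mx_last]; ring
    rw [h1, mul_one]
    apply Finset.prod_congr rfl
    intro i _
    have := vD_mul x D hP i.castSucc i.castSucc
    rw [if_pos rfl, mul_T] at this
    rw [mul_T, Mx_castSucc, Mx_castSucc, if_pos (Finset.mem_univ _), if_pos (Finset.mem_univ _)]
    exact this
  · intro i j hij
    have hij' : i < j := hij
    revert hij'
    refine Fin.lastCases ?_ (fun i' => ?_) i
    · intro h
      exact absurd h (not_lt.mpr (Fin.le_last j))
    · intro h
      have := vD_mul x D hP i'.castSucc j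
      rw [if_neg (ne_of_lt h), mul_T] at this
      rw [mul_T, Mx_castSucc, Mx_castSucc, if_pos (Finset.mem_univ _), if_pos (Finset.mem_univ _)]
      exact this

lemma sum_first (x : Fin (n + 1) → K) (D : Finset (Fin (n + 1))) (hD : Fin.last n ∉ D) :
    ∑ T : XX n, (if Fin.last n ∉ T.1 ∧ D ⊆ T.1 then wt x T.1 else 0) =
      ∏ i : Fin n, (if i.castSucc ∈ D then x i.castSucc else 1 + x i.castSucc) := by
  rw [← sum_XX (fun T => if Fin.last n ∉ T ∧ D ⊆ T then wt x T else 0), Finset.sum_filter]
  have h := Fintype.prod_add (fun j : Fin (n + 1) => if j = Fin.last n then 0 else x j)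
    (fun j => if j ∈ D then (0 : K) else 1)
  rw [Fin.prod_univ_castSucc] at h
  simp only [if_true, hD, if_false, zero_add, mul_one] at h
  have h1 : ∏ i : Fin n, ((if i.castSucc = Fin.last n then 0 else x i.castSucc) +
      (if i.castSucc ∈ D then (0 : K) else 1)) =
      ∏ i : Fin n, (if i.castSucc ∈ D then x i.castSucc else 1 + x i.castSucc) := by
    apply Finset.prod_congr rfl
    intro i _
    rw [if_neg (Fin.castSucc_lt_last i).ne]
    split_ifs
    · ring
    · ring
  rw [← h1, h]
  apply Finset.sum_congr rfl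
  intro S _
  by_cases hS : S = univ
  · subst hS
    rw [if_neg (by simp)]
    symm
    rw [mul_eq_zero]; left
    apply Finset.prod_eq_zero (Finset.mem_univ (Fin.last n))
    simp
  · rw [if_pos hS]
    by_cases h2 : Fin.last n ∈ S
    · rw [if_neg (by tauto)]
      symm
      rw [mul_eq_zero]; left
      apply Finset.prod_eq_zero h2
      simp
    · by_cases h3 : D ⊆ S
      · rw [if_pos ⟨h2, h3⟩]
        have h4 : ∏ a ∈ Sᶜ, (if a ∈ D then (0 : K) else 1) = 1 := by
          apply Finset.prod_eq_one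
          intro a ha
          rw [if_neg (fun h5 => (Finset.mem_compl.mp ha) (h3 h5))]
        rw [h4, mul_one]
        unfold wt
        apply Finset.prod_congr rfl
        intro a ha
        have h5 : a ≠ Fin.last n := by rintro rfl; exact h2 ha
        rw [if_neg h5]
      · rw [if_neg (by tauto)]
        symm
        rw [mul_eq_zero]; right
        obtain ⟨a, ha, ha2⟩ := Finset.not_subset.mp h3
        apply Finset.prod_eq_zero (Finset.mem_compl.mpr ha2)
        rw [if_pos ha]

lemma identity [CharZero K] (x : Fin (n + 1) → K) (D : Finset (Fin (n + 1)))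
    (hD : Fin.last n ∉ D) (f : Fin n → Fin (r + 1))
    (hP : (T (fun j => 1 + x j) x).det ≠ 0) :
    ∑ S : Fin (r + 1) → XX n, (∏ s, wt x (S s).1) * (Mx x D f ∅ S).det =
      ∑ S : Fin (r + 1) → XX n, (∏ s, wt x (S s).1) *
        (if Fin.last n ∉ (S 0).1 ∧ D ⊆ (S 0).1 then 1 else 0) := by
  have hQ : (T (fun j => 1 + x j) x).det = ∑ S : XX n, wt x S.1 := by
    rw [det_Q, sum_XX]
  have hL : ∑ S : Fin (r + 1) → XX n, (∏ s, wt x (S s).1) * (Mx x D f ∅ S).det =
      (∑ S : XX n, wt x S.1) ^ r *
        ∏ i : Fin n, (if i.castSucc ∈ D then x i.castSucc else 1 + x i.castSucc) := by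
    rw [all_steps x D f hP univ]
    have h1 : ∀ S : Fin (r + 1) → XX n, (Mx x D f univ S).det =
        (∏ i : Fin n, (if i.castSucc ∈ D then x i.castSucc else 1 + x i.castSucc)) /
          (T (fun j => 1 + x j) x).det := by
      intro S
      rw [eq_div_iff hP, det_final x D f S hP]
    simp only [h1]
    have h5 := Fintype.sum_pow (fun S : XX n => wt x S.1) (r + 1)
    rw [← Finset.sum_mul, ← h5, pow_succ, hQ]
    rw [hQ] at hP
    field_simp
  rw [hL, ← sum_first x D hD]
  have hR : ∀ S : Fin (r + 1) → XX n, (∏ s, wt x (S s).1) *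
        (if Fin.last n ∉ (S 0).1 ∧ D ⊆ (S 0).1 then 1 else 0) =
      ∏ s : Fin (r + 1), (if s = 0 then (if Fin.last n ∉ (S s).1 ∧ D ⊆ (S s).1
        then wt x (S s).1 else 0) else wt x (S s).1) := by
    intro S
    rw [Fin.prod_univ_succ, Fin.prod_univ_succ]
    simp only [if_true, Fin.succ_ne_zero, if_false]
    split_ifs <;> ring
  simp only [hR]
  have h2 := Fintype.prod_sum (fun (s : Fin (r + 1)) (U : XX n) => if s = 0 then
    (if Fin.last n ∉ U.1 ∧ D ⊆ U.1 then wt x U.1 else 0) else wt x U.1)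
  rw [← h2, Fin.prod_univ_succ]
  simp only [if_true, Fin.succ_ne_zero, if_false, Finset.prod_const, Finset.card_univ,
    Fintype.card_fin]
  ring

end induct


section pull

variable {n r : ℕ}

lemma cyc_pred {i j : Fin (n + 1)} (h : i - 1 ≠ j) : cyc (i - 1) j = insert i (cyc i j) := by
  have hj : j - i ≠ Fin.last n := by
    intro h1
    apply h
    have h2 : j - i + 1 = 0 := by rw [h1]; exact Fin.last_add_one n
    rw [sub_add] at h2
    exact (sub_eq_zero.mp h2).symm
  have hj1 : (j - (i - 1)).val = (j - i).val + 1 := by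
    rw [← sub_add, Fin.val_add_one, if_neg hj]
  ext x
  unfold cyc
  simp only [mem_filter, mem_univ, true_and, mem_insert, hj1]
  rw [← sub_add, Fin.val_add_one]
  have h1 := (x - i).is_le
  have h2 := (j - i).is_le
  have h3 : (j - i).val ≠ n := fun h4 => hj (Fin.ext h4)
  have h5 : x = i ↔ (x - i).val = 0 := by
    constructor
    · intro h; rw [h]; simp
    · intro h
      have : x - i = 0 := Fin.ext h
      exact sub_eq_zero.mp this
  rw [h5]
  split_ifs with h6
  · have h7 : (x - i).val = n := by rw [h6]; simp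
    omega
  · omega

open Classical in
/-- 0/1 matrix of a sample point -/
noncomputable def indM (D : Finset (Fin n)) (ω : Pt n r) :
    Matrix (Fin (n + 1)) (Fin (n + 1)) ℚ :=
  Matrix.of fun i j => if ω ∈ MD D i j then 1 else 0

lemma indM_last (D : Finset (Fin n)) (ω : Pt n r) (j : Fin (n + 1)) :
    indM D ω (Fin.last n) j = 1 := by
  simp [indM, MD]

lemma mem_MD_castSucc (D : Finset (Fin n)) (ω : Pt n r) (i : Fin n) (j : Fin (n + 1)) :
    ω ∈ MD D i.castSucc j ↔ ¬ (i ∈ D ∧ i.castSucc ∉ ω.1 (ω.2 i)) ∧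
      cyc i.castSucc j ⊆ ω.1 (ω.2 i) := by
  unfold MD
  rw [Fin.lastCases_castSucc]
  by_cases hi : i ∈ D
  · rw [if_pos hi]
    change ω ∈ evJ (ω.2 i) (i.castSucc - 1) j ↔ _
    unfold evJ
    by_cases hj : i.castSucc - 1 = j
    · rw [if_pos hj]
      subst hj
      change ω.1 (ω.2 i) = univ ↔ _
      constructor
      · intro h1
        rw [h1]
        exact ⟨fun h2 => h2.2 (Finset.mem_univ _), Finset.subset_univ _⟩
      · rintro ⟨h1, h2⟩
        have h3 : i.castSucc ∈ ω.1 (ω.2 i) := by
          by_contra h4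
          exact h1 ⟨hi, h4⟩
        rw [← univ_subset_iff, ← insert_cyc i.castSucc]
        exact insert_subset h3 h2
    · rw [if_neg hj]
      change cyc (i.castSucc - 1) j ⊆ ω.1 (ω.2 i) ↔ _
      rw [cyc_pred hj, Finset.insert_subset_iff]
      tauto
  · rw [if_neg hi]
    change cyc i.castSucc j ⊆ ω.1 (ω.2 i) ↔ _
    tauto

lemma indM_castSucc (D : Finset (Fin n)) (ω : Pt n r) (i : Fin n) (j : Fin (n + 1)) :
    indM D ω i.castSucc j = if i ∈ D ∧ i.castSucc ∉ ω.1 (ω.2 i) then 0 else
      (if cyc i.castSucc j ⊆ ω.1 (ω.2 i) then 1 else 0) := by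
  unfold indM
  rw [Matrix.of_apply]
  have h := mem_MD_castSucc D ω i j
  by_cases h1 : i ∈ D ∧ i.castSucc ∉ ω.1 (ω.2 i)
  · rw [if_pos h1, if_neg (fun h2 => (h.mp h2).1 h1)]
  · rw [if_neg h1]
    by_cases h2 : cyc i.castSucc j ⊆ ω.1 (ω.2 i)
    · rw [if_pos h2, if_pos (h.mpr ⟨h1, h2⟩)]
    · rw [if_neg h2, if_neg (fun h3 => h2 (h.mp h3).2)]

/-- monomial of a tuple -/
noncomputable def mon (S : Tup n r) : MvPolynomial (Fin (n + 1)) ℚ :=
  ∏ s, ∏ j ∈ S s, MvPolynomial.X j

lemma coeff_mon (S : Tup n r) (p : Fin (n + 1) → ℕ) :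
    MvPolynomial.coeff (Finsupp.equivFunOnFinite.symm p) (mon S) = if S ∈ SS n r p then 1 else 0 := by
  have h1 : mon S = MvPolynomial.monomial (∑ s, ∑ j ∈ S s, Finsupp.single j 1) (1 : ℚ) := by
    unfold mon
    rw [MvPolynomial.monomial_sum_one]
    apply Finset.prod_congr rfl
    intro s _
    rw [MvPolynomial.monomial_sum_one]
    rfl
  rw [h1, MvPolynomial.coeff_monomial]
  have h2 : (∑ s, ∑ j ∈ S s, Finsupp.single j 1 = Finsupp.equivFunOnFinite.symm p) ↔
      S ∈ SS n r p := by
    unfold SS
    simp only [mem_filter, mem_univ, true_and]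
    rw [Finsupp.ext_iff]
    apply forall_congr'
    intro i
    rw [Finsupp.finsetSum_apply]
    simp only [Finsupp.finsetSum_apply, Finsupp.single_apply, Finset.sum_ite_eq',
      Finsupp.equivFunOnFinite_symm_apply_apply]
    rw [Finset.card_filter]
  simp only [h2]

lemma poly_identity (D : Finset (Fin n)) (f : Fin n → Fin (r + 1)) :
    ∑ S : Fin (r + 1) → XX n, mon (fun s => (S s).1) *
        MvPolynomial.C (indM D ((fun s => (S s).1, f) : Pt n (r + 1))).det =
      ∑ S : Fin (r + 1) → XX n, mon (fun s => (S s).1) *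
        MvPolynomial.C (if Fin.last n ∉ (S 0).1 ∧ (∀ i ∈ D, i.castSucc ∈ (S 0).1)
          then 1 else 0) := by
  let R0 := MvPolynomial (Fin (n + 1)) ℚ
  let K := FractionRing R0
  have hinj : Function.Injective (algebraMap R0 K) := IsFractionRing.injective R0 K
  have hcz : CharZero K := charZero_of_injective_algebraMap hinj
  let x : Fin (n + 1) → K := fun j => algebraMap R0 K (MvPolynomial.X j)
  have hwt : ∀ S : Finset (Fin (n + 1)), wt x S = algebraMap R0 K (∏ j ∈ S, MvPolynomial.X j) := by
    intro S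
    rw [map_prod]; rfl
  have hmon : ∀ S : Fin (r + 1) → XX n, ∏ s, wt x (S s).1 =
      algebraMap R0 K (mon (fun s => (S s).1)) := by
    intro S
    unfold mon
    rw [map_prod]
    apply Finset.prod_congr rfl
    intro s _
    exact hwt _
  have hP : (T (fun j => 1 + x j) x).det ≠ 0 := by
    rw [det_Q]
    simp only [hwt]
    rw [← map_sum]
    intro h
    have h0 : ∑ S ∈ univ.filter (fun S : Finset (Fin (n + 1)) => S ≠ univ),
        ∏ j ∈ S, (MvPolynomial.X j : R0) = 0 := hinj (by rw [h, map_zero])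
    have h1 := congrArg (MvPolynomial.eval (fun _ => (0 : ℚ))) h0
    rw [map_sum, map_zero] at h1
    have h2 : ∀ S : Finset (Fin (n + 1)), MvPolynomial.eval (fun _ => (0 : ℚ))
        (∏ j ∈ S, (MvPolynomial.X j : R0)) = if S = ∅ then 1 else 0 := by
      intro S
      rw [map_prod]
      simp only [MvPolynomial.eval_X]
      by_cases hS : S = ∅
      · subst hS; simp
      · rw [if_neg hS]
        obtain ⟨a, ha⟩ := Finset.nonempty_iff_ne_empty.mpr hS
        exact Finset.prod_eq_zero ha rfl
    simp only [h2] at h1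
    rw [Finset.sum_ite_eq'] at h1
    rw [if_pos] at h1
    · exact one_ne_zero h1
    · simp only [mem_filter, mem_univ, true_and]
      intro h
      have := Finset.mem_univ (0 : Fin (n + 1))
      rw [← h] at this
      simp at this
  set D' : Finset (Fin (n + 1)) := D.map Fin.castSuccEmb with hD'
  have hlast : Fin.last n ∉ D' := by
    rw [hD', Finset.mem_map]
    rintro ⟨i, _, hi⟩
    exact absurd hi (Fin.castSucc_lt_last i).ne
  have hmem : ∀ i : Fin n, i.castSucc ∈ D' ↔ i ∈ D := by
    intro i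
    rw [hD', Finset.mem_map]
    constructor
    · rintro ⟨i', h1, h2⟩
      have : i' = i := Fin.castSucc_injective n h2
      subst this
      exact h1
    · intro h
      exact ⟨i, h, rfl⟩
  have hid := identity x D' hlast f hP
  have hdet : ∀ S : Fin (r + 1) → XX n, (Mx x D' f ∅ S).det =
      algebraMap R0 K (MvPolynomial.C (indM D ((fun s => (S s).1, f) : Pt n (r + 1))).det) := by
    intro S
    have h1 : (algebraMap R0 K).comp (MvPolynomial.C : ℚ →+* R0) =
      (algebraMap R0 K).comp (MvPolynomial.C : ℚ →+* R0) := rfl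
    change _ = ((algebraMap R0 K).comp (MvPolynomial.C : ℚ →+* R0)) _
    rw [RingHom.map_det]
    congr 1
    ext i j
    rw [RingHom.mapMatrix_apply, Matrix.map_apply]
    refine Fin.lastCases ?_ (fun i' => ?_) i
    · rw [Mx_last, indM_last, map_one]
    · rw [Mx_castSucc, indM_castSucc, if_neg (by simp)]
      simp only [uD, Matrix.of_apply, hmem, u]
      split_ifs <;> simp
  have hcond : ∀ S : Fin (r + 1) → XX n,
      (if Fin.last n ∉ (S 0).1 ∧ D' ⊆ (S 0).1 then (1 : K) else 0) =
      algebraMap R0 K (MvPolynomial.C (if Fin.last n ∉ (S 0).1 ∧ (∀ i ∈ D, i.castSucc ∈ (S 0).1)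
          then 1 else 0)) := by
    intro S
    have : D' ⊆ (S 0).1 ↔ ∀ i ∈ D, i.castSucc ∈ (S 0).1 := by
      constructor
      · intro h i hi
        exact h ((hmem i).mpr hi)
      · intro h j hj
        rw [hD', Finset.mem_map] at hj
        obtain ⟨i, hi, rfl⟩ := hj
        exact h i hi
    simp only [this]
    split_ifs <;> simp
  simp only [hmon, hdet, hcond, ← map_mul, ← map_sum] at hid
  exact hinj hid

end pull


section fin

variable {n r : ℕ}

lemma sum_tup (G : Tup n r → ℚ) :
    ∑ S : Fin r → XX n, G (fun s => (S s).1) =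
      ∑ S ∈ univ.filter (fun S : Tup n r => ∀ t, S t ≠ univ), G S := by
  rw [Finset.sum_subtype (p := fun S : Tup n r => ∀ t, S t ≠ univ) _ (by simp) G]
  exact (Equiv.sum_comp (Equiv.subtypePiEquivPi (p := fun (_ : Fin r) (T : Finset (Fin (n + 1))) =>
    T ≠ univ)) (fun S : Fin r → XX n => G (fun s => (S s).1))).symm

lemma MM_identity (p : Fin (n + 1) → ℕ) (D : Finset (Fin n)) (f : Fin n → Fin (r + 1)) :
    ∑ S ∈ MM n (r + 1) p, (indM D ((S, f) : Pt n (r + 1))).det =
      (((MM n (r + 1) p).filter (fun S => Fin.last n ∉ S 0 ∧ ∀ i ∈ D, i.castSucc ∈ S 0)).card : ℚ) := by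
  have h := congrArg (MvPolynomial.coeff (Finsupp.equivFunOnFinite.symm p)) (poly_identity D f)
  rw [MvPolynomial.coeff_sum, MvPolynomial.coeff_sum] at h
  have hc : ∀ (q : MvPolynomial (Fin (n + 1)) ℚ) (a : ℚ),
      MvPolynomial.coeff (Finsupp.equivFunOnFinite.symm p) (q * MvPolynomial.C a) =
        MvPolynomial.coeff (Finsupp.equivFunOnFinite.symm p) q * a := by
    intro q a
    rw [mul_comm, MvPolynomial.coeff_C_mul, mul_comm]
  simp only [hc, coeff_mon] at h
  rw [sum_tup (fun S : Tup n (r + 1) => (if S ∈ SS n (r + 1) p then 1 else 0) *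
    (indM D ((S, f) : Pt n (r + 1))).det),
    sum_tup (fun S : Tup n (r + 1) => (if S ∈ SS n (r + 1) p then 1 else 0) *
      (if Fin.last n ∉ S 0 ∧ (∀ i ∈ D, i.castSucc ∈ S 0) then (1 : ℚ) else 0))] at h
  have e1 : ∀ G : Tup n (r + 1) → ℚ, ∑ S ∈ univ.filter (fun S : Tup n (r + 1) => ∀ t, S t ≠ univ),
      (if S ∈ SS n (r + 1) p then 1 else 0) * G S = ∑ S ∈ MM n (r + 1) p, G S := by
    intro G
    have : MM n (r + 1) p =
        (univ.filter (fun S : Tup n (r + 1) => ∀ t, S t ≠ univ)).filter (fun S => S ∈ SS n (r + 1) p) := by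
      ext S
      unfold MM
      simp only [mem_filter, mem_univ, true_and]
      tauto
    rw [this, Finset.sum_filter (fun S => S ∈ SS n (r + 1) p)]
    apply Finset.sum_congr rfl
    intro S _
    split_ifs <;> simp
  rw [e1, e1] at h
  rw [h, Finset.sum_boole]

lemma det_indM_zero (D : Finset (Fin n)) (S : Tup n r) (f : Fin n → Fin r)
    (hf : ∀ t, ∃ i, f i = t) (t : Fin r) (ht : S t = univ) :
    (indM D ((S, f) : Pt n r)).det = 0 := by
  obtain ⟨i, hi⟩ := hf t
  apply Matrix.det_zero_of_row_eq (i := i.castSucc) (j := Fin.last n)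
    (Fin.castSucc_lt_last i).ne
  ext j
  rw [indM_last, indM_castSucc]
  simp only [hi, ht]
  simp

lemma SS_identity (p : Fin (n + 1) → ℕ) (D : Finset (Fin n)) (f : Fin n → Fin (r + 1))
    (hf : ∀ t, ∃ i, f i = t) :
    ∑ S ∈ SS n (r + 1) p, (indM D ((S, f) : Pt n (r + 1))).det =
      (((MM n (r + 1) p).filter (fun S => Fin.last n ∉ S 0 ∧ ∀ i ∈ D, i.castSucc ∈ S 0)).card : ℚ) := by
  rw [← MM_identity p D f]
  symm
  apply Finset.sum_subset (Finset.filter_subset _ _)
  intro S hS hS2
  simp only [mem_filter, hS, true_and] at hS2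
  push Not at hS2
  obtain ⟨t, ht⟩ := hS2
  exact det_indM_zero D S f hf t ht

lemma Pr_eq {α : Type} (Om : Finset α) (E : Set α) (q : α → Prop) [DecidablePred q]
    (h : ∀ ω, ω ∈ E ↔ q ω) : Pr Om E = ((Om.filter q).card : ℚ) / Om.card := by
  unfold Pr
  congr 2
  congr 1
  ext ω
  simp only [mem_filter, h]

lemma Pdet_eq (Om : Finset (Pt n r)) (D : Finset (Fin n)) :
    Pdet Om (MD D) = (∑ ω ∈ Om, (indM D ω).det) / Om.card := by
  classical
  unfold Pdet
  have h1 : ∀ π : Equiv.Perm (Fin (n + 1)),
      ((Om.filter (fun ω => ∀ i, ω ∈ MD D i (π i))).card : ℚ) =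
        ∑ ω ∈ Om, ∏ i, indM D ω i (π i) := by
    intro π
    rw [Finset.card_filter, Nat.cast_sum]
    apply Finset.sum_congr rfl
    intro ω _
    by_cases h : ∀ i, ω ∈ MD D i (π i)
    · rw [if_pos h, Nat.cast_one]
      symm
      apply Finset.prod_eq_one
      intro i _
      unfold indM
      rw [Matrix.of_apply, if_pos (h i)]
    · rw [if_neg h, Nat.cast_zero]
      symm
      push Not at h
      obtain ⟨i, hi⟩ := h
      apply Finset.prod_eq_zero (Finset.mem_univ i)
      unfold indM
      rw [Matrix.of_apply, if_neg hi]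
  have h2 : ∀ ω : Pt n r, (indM D ω).det = ∑ π : Equiv.Perm (Fin (n + 1)),
      ((Equiv.Perm.sign π : ℤ) : ℚ) * ∏ i, indM D ω i (π i) := by
    intro ω
    rw [← Matrix.det_transpose, Matrix.det_apply']
    rfl
  simp only [h2]
  rw [Finset.sum_comm, Finset.sum_div]
  apply Finset.sum_congr rfl
  intro π _
  rw [← Finset.mul_sum, ← h1 π, mul_div_assoc,
    Pr_eq Om _ (fun ω => ∀ i, ω ∈ MD D i (π i)) (fun ω => Set.mem_iInter)]

/-- The determinant identity, for the uniform law on `S_{p,r} × F`, where `F` is any nonempty set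
of surjections. -/
theorem general (r : ℕ) (p : Fin (n + 1) → ℕ)
    (hM : (MM n (r + 1) p).Nonempty) (D : Finset (Fin n)) (F : Finset (Fin n → Fin (r + 1)))
    (hF : F ⊆ Surj n (r + 1)) (hF0 : F.Nonempty) :
    Pdet (SS n (r + 1) p ×ˢ F) (MD D) =
      ((MM n (r + 1) p).card : ℚ) / (SS n (r + 1) p).card *
        Pr (MM n (r + 1) p) {S | Fin.last n ∉ S 0 ∧ ∀ i ∈ D, i.castSucc ∈ S 0} := by
  classical
  rw [Pdet_eq, Finset.sum_product_right]
  have h1 : ∀ f ∈ F, ∑ S ∈ SS n (r + 1) p, (indM D ((S, f) : Pt n (r + 1))).det =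
      (((MM n (r + 1) p).filter (fun S => Fin.last n ∉ S 0 ∧ ∀ i ∈ D, i.castSucc ∈ S 0)).card : ℚ) := by
    intro f hf
    apply SS_identity p D f
    have := hF hf
    unfold Surj at this
    exact (Finset.mem_filter.mp this).2
  rw [Finset.sum_congr rfl h1, Finset.sum_const, Finset.card_product, nsmul_eq_mul]
  rw [Pr_eq (MM n (r + 1) p) {S | Fin.last n ∉ S 0 ∧ ∀ i ∈ D, i.castSucc ∈ S 0}
    (fun S => Fin.last n ∉ S 0 ∧ ∀ i ∈ D, i.castSucc ∈ S 0) (fun S => Iff.rfl)]
  have hMc : ((MM n (r + 1) p).card : ℚ) ≠ 0 := by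
    exact_mod_cast (Finset.card_pos.mpr hM).ne'
  have hFc : (F.card : ℚ) ≠ 0 := by
    exact_mod_cast (Finset.card_pos.mpr hF0).ne'
  have hSc : ((SS n (r + 1) p).card : ℚ) ≠ 0 := by
    have : (SS n (r + 1) p).Nonempty := hM.mono (Finset.filter_subset _ _)
    exact_mod_cast (Finset.card_pos.mpr this).ne'
  push_cast
  field_simp

end fin

/-- The conjectured determinant identity (Q1), for all `k = n + 1`, all `1 ≤ r < k`, all `p` with
`M_{p,r}` nonempty and all `D ⊆ [k-1]`; moreover it holds conditionally on each surjection `f`. -/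
theorem result (n r : ℕ) (hr : 0 < r) (hrn : r < n + 1) (p : Fin (n + 1) → ℕ)
    (hM : (MM n r p).Nonempty) (D : Finset (Fin n)) :
    Pdet (SS n r p ×ˢ Surj n r) (MD D) =
        ((MM n r p).card : ℚ) / (SS n r p).card *
          Pr (MM n r p) {S | Fin.last n ∉ S ⟨0, hr⟩ ∧ ∀ i ∈ D, i.castSucc ∈ S ⟨0, hr⟩} ∧
    ∀ f ∈ Surj n r, Pdet (SS n r p ×ˢ {f}) (MD D) =
        ((MM n r p).card : ℚ) / (SS n r p).card *
          Pr (MM n r p) {S | Fin.last n ∉ S ⟨0, hr⟩ ∧ ∀ i ∈ D, i.castSucc ∈ S ⟨0, hr⟩} := by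
  obtain ⟨r, rfl⟩ : ∃ r', r = r' + 1 := ⟨r - 1, by omega⟩
  refine ⟨general r p hM D _ (Finset.Subset.refl _) ?_, fun f hf => general r p hM D {f}
    (Finset.singleton_subset_iff.mpr hf) (Finset.singleton_nonempty f)⟩
  refine ⟨fun i => if h : i.val < r + 1 then ⟨i.val, h⟩ else 0, ?_⟩
  unfold Surj
  rw [Finset.mem_filter]
  refine ⟨Finset.mem_univ _, fun t => ⟨⟨t.val, by have := t.isLt; omega⟩, ?_⟩⟩
  exact dif_pos t.isLt

end Pool.Agent.Results.MP_02f487_co.DeterminantIdentity
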